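import Pool.Agent.W588.RP.UP1

/-!
# The upper bound for the face numbers (RP-UP)
-/

set_option autoImplicit false

open MeasureTheory Set Module
open scoped ENNReal

namespace Pool.Agent.W588.RP

open Pool.Agent.W829.RP

/-! ### real lemmas -/

theorem real_M (b c : ℝ) (hc : 0 < c) (j : ℕ) :
    ∃ M : ℝ, 0 < M ∧ ∀ x : ℝ, 1 ≤ x → x ^ b * x ^ (j + 1) * Real.exp (-(c * x)) ≤ M := by
  set p : ℕ := ⌈b⌉₊ + (j + 1) with hp
  refine ⟨(p.factorial : ℝ) / c ^ p, by positivity, fun x hx => ?_⟩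
  have hx0 : 0 < x := by linarith
  have h1 : x ^ b ≤ x ^ (⌈b⌉₊ : ℕ) := by
    rw [← Real.rpow_natCast]
    exact Real.rpow_le_rpow_of_exponent_le hx (Nat.le_ceil b)
  have h2 : x ^ b * x ^ (j + 1) ≤ x ^ p := by
    calc x ^ b * x ^ (j + 1) ≤ x ^ (⌈b⌉₊ : ℕ) * x ^ (j + 1) := by gcongr
      _ = x ^ p := by rw [hp, pow_add x ⌈b⌉₊ (j + 1)]
  have h3 : (c * x) ^ p / p.factorial ≤ Real.exp (c * x) :=
    Real.pow_div_factorial_le_exp (c * x) (by positivity) p
  have h4 : x ^ p ≤ (p.factorial : ℝ) / c ^ p * Real.exp (c * x) := by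
    have h5 : (c * x) ^ p ≤ Real.exp (c * x) * p.factorial := by
      rwa [div_le_iff₀ (by positivity)] at h3
    rw [mul_pow] at h5
    rw [div_mul_eq_mul_div, le_div_iff₀ (by positivity)]
    linarith
  calc x ^ b * x ^ (j + 1) * Real.exp (-(c * x)) ≤ x ^ p * Real.exp (-(c * x)) := by gcongr
    _ ≤ ((p.factorial : ℝ) / c ^ p * Real.exp (c * x)) * Real.exp (-(c * x)) := by gcongr
    _ = (p.factorial : ℝ) / c ^ p := by
        rw [mul_assoc, ← Real.exp_add, add_neg_cancel, Real.exp_zero, mul_one]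

theorem ofReal3 (x y T : ℝ) (hx : 0 ≤ x) (hy : 0 ≤ y) : ENNReal.ofReal (x * y * T) =
    ENNReal.ofReal x * ENNReal.ofReal y * ENNReal.ofReal T := by
  rw [ENNReal.ofReal_mul (mul_nonneg hx hy), ENNReal.ofReal_mul hx]

section real

variable (A b cc CC kap M : ℝ) (j : ℕ) (hA : 0 < A) (hb : 0 < b) (hcc : 0 < cc) (hCC : 0 < CC)
  (hkap : 0 < kap) (hM : ∀ x : ℝ, 1 ≤ x → x ^ b * x ^ (j + 1) * Real.exp (-(cc / 2 * x)) ≤ M)

include hcc in
theorem exp_le (n x m : ℝ) (hn : 0 < n) (hx : 0 ≤ x) (hm : n / 2 ≤ m) :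
    Real.exp (-(cc * x * m / n)) ≤ Real.exp (-(cc / 2 * x)) := by
  apply Real.exp_le_exp.2
  have : cc / 2 * x ≤ cc * x * m / n := by
    rw [le_div_iff₀ hn]
    have : cc / 2 * x * n = cc * x * (n / 2) := by ring
    rw [this]
    gcongr
  linarith

include hA hcc hCC hkap hM in
theorem real2 (n x m : ℝ) (hn : 1 ≤ n) (hx : 1 ≤ x) (hm : n / 2 ≤ m) :
    n ^ (j + 1) * (A * (2 * x) ^ b / (cc * (x * kap / n))) *
      ((CC * x / n) ^ (j + 1) * Real.exp (-(cc * x * m / n))) ≤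
      n * (A * 2 ^ b * CC ^ (j + 1) / (cc * kap) * M / x) := by
  have hn0 : 0 < n := by linarith
  have hx0 : 0 < x := by linarith
  have h1 := exp_le cc hcc n x m hn0 hx0.le hm
  have h2 := hM x hx
  rw [Real.mul_rpow (by norm_num) hx0.le]
  calc n ^ (j + 1) * (A * (2 ^ b * x ^ b) / (cc * (x * kap / n))) *
      ((CC * x / n) ^ (j + 1) * Real.exp (-(cc * x * m / n)))
      ≤ n ^ (j + 1) * (A * (2 ^ b * x ^ b) / (cc * (x * kap / n))) *
      ((CC * x / n) ^ (j + 1) * Real.exp (-(cc / 2 * x))) := by gcongr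
    _ = n * (A * 2 ^ b * CC ^ (j + 1) / (cc * kap) *
        (x ^ b * x ^ (j + 1) * Real.exp (-(cc / 2 * x))) / x) := by
        rw [div_pow, mul_pow]
        field_simp
    _ ≤ n * (A * 2 ^ b * CC ^ (j + 1) / (cc * kap) * M / x) := by gcongr

include hA hcc hkap hM in
theorem real4 (L n x m : ℝ) (hL : 0 < L) (hn : 1 ≤ n) (hx : 1 ≤ x) (hm : n / 2 ≤ m)
    (hnx : n ≤ L * x) :
    n ^ (j + 1) * (A * (2 * x) ^ b / (cc * (x * kap / n))) * Real.exp (-(cc * x * m / n)) ≤
      n * (A * 2 ^ b / (cc * kap) * L ^ (j + 1) * M) := by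
  have hn0 : 0 < n := by linarith
  have hx0 : 0 < x := by linarith
  have h1 := exp_le cc hcc n x m hn0 hx0.le hm
  have h2 := hM x hx
  have hM0 : 0 ≤ M := le_trans (by positivity) h2
  rw [Real.mul_rpow (by norm_num) hx0.le]
  calc n ^ (j + 1) * (A * (2 ^ b * x ^ b) / (cc * (x * kap / n))) *
      Real.exp (-(cc * x * m / n))
      ≤ (L * x) ^ (j + 1) * (A * (2 ^ b * x ^ b) / (cc * (x * kap / n))) *
        Real.exp (-(cc / 2 * x)) := by gcongr
    _ = n * (A * 2 ^ b / (cc * kap) * L ^ (j + 1) *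
        (x ^ b * x ^ (j + 1) * Real.exp (-(cc / 2 * x)))) / x := by
        rw [mul_pow]
        field_simp
    _ ≤ n * (A * 2 ^ b / (cc * kap) * L ^ (j + 1) * M) / x := by gcongr
    _ ≤ n * (A * 2 ^ b / (cc * kap) * L ^ (j + 1) * M) := by
        apply div_le_self (by positivity) hx

end real

variable {V : Type} [NormedAddCommGroup V] [NormedSpace ℝ V] [FiniteDimensional ℝ V]
  [MeasureSpace V] [BorelSpace V] [(volume : Measure V).IsAddHaarMeasure]

theorem up (hCV : S_CV) (hCOV : S_COV) (hGP : S_GP) (hFUP : S_FUP) (hUB : S_UB) : S_UP := by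
  intro V _ _ _ _ _ _ K hK hdoub j hj
  obtain ⟨A, b, hA, hb, hdbl⟩ := hdoub
  set D := finrank ℝ V with hDdef
  have hD : 1 ≤ D := by omega
  have hvt : volume K ≠ ⊤ := hK.2.1.measure_ne_top
  have hv0 : volume K ≠ 0 := by
    have h1 : 0 < volume (interior K) := isOpen_interior.measure_pos volume hK.2.2
    exact (h1.trans_le (measure_mono interior_subset)).ne'
  set kap : ℝ := (volume K).toReal with hkap
  have hkap0 : 0 < kap := ENNReal.toReal_pos hv0 hvt
  have hvK : volume K = ENNReal.ofReal kap := (ENNReal.ofReal_toReal hvt).symm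
  set cc : ℝ := c1 D with hcc
  have hcc0 : 0 < cc := c1_pos D
  set CC : ℝ := C1 D with hCC
  have hCC0 : 0 < CC := C1_pos D
  obtain ⟨M, hM0, hM⟩ := real_M b (cc / 2) (by positivity) j
  set Q0 : ℝ := A * 2 ^ b * CC ^ (j + 1) / (cc * kap) with hQ0
  have hQ00 : 0 < Q0 := by positivity
  set L : ℝ := 2 ^ (D + 2) with hL
  set Q2 : ℝ := A * 2 ^ b / (cc * kap) * L ^ (j + 1) * M with hQ2
  have hQ20 : 0 < Q2 := by positivity
  refine ⟨2 * (Q0 + Q0 * M) + Q2, max (2 * (j + 1)) (2 ^ (D + 1)), by positivity, ?_⟩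
  intro n hn
  have hn1 : 2 * (j + 1) ≤ n := (le_max_left _ _).trans hn
  have hn2 : 2 ^ (D + 1) ≤ n := (le_max_right _ _).trans hn
  have hnpos : 0 < n := by omega
  have hnR : (0 : ℝ) < n := by exact_mod_cast hnpos
  have hnR1 : (1 : ℝ) ≤ n := by exact_mod_cast hnpos
  set m : ℕ := n - (j + 1) with hm
  have hmn : (n : ℝ) / 2 ≤ m := by
    have h1 : n ≤ 2 * m := by omega
    have h2 : (n : ℝ) ≤ 2 * m := by exact_mod_cast h1
    linarith
  set H : ℕ := Nat.log 2 (n / 2 ^ (D + 1)) with hH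
  have hq : 1 ≤ n / 2 ^ (D + 1) := (Nat.one_le_div_iff (by positivity)).2 hn2
  have hH1 : 2 ^ H * 2 ^ (D + 1) ≤ n := by
    have h1 : 2 ^ H ≤ n / 2 ^ (D + 1) := Nat.pow_log_le_self 2 (by omega)
    exact (Nat.mul_le_mul_right _ h1).trans (Nat.div_mul_le_self _ _)
  have hH2 : n ≤ 2 ^ (D + 2) * 2 ^ H := by
    have h1 : n / 2 ^ (D + 1) < 2 ^ (H + 1) := Nat.lt_pow_succ_log_self (by norm_num) _
    have h2 : n < 2 ^ (H + 1) * 2 ^ (D + 1) := by
      rwa [Nat.div_lt_iff_lt_mul (by positivity)] at h1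
    calc n ≤ 2 ^ (H + 1) * 2 ^ (D + 1) := h2.le
      _ = 2 ^ (D + 2) * 2 ^ H := by rw [pow_succ, pow_succ, pow_succ, pow_succ]; ring
  -- the scales
  let t : ℕ → ℝ := fun h => 2 ^ h * kap / n
  have ht0 : ∀ h, 0 < t h := fun h => by positivity
  have htsucc : ∀ h, t (h + 1) / 2 = t h := by
    intro h
    simp only [t, pow_succ]
    ring
  have htD : ∀ h, h ≤ H → ENNReal.ofReal (2 ^ D * t h) < volume K := by
    intro h hh
    rw [hvK]
    refine (ENNReal.ofReal_lt_ofReal_iff hkap0).2 ?_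
    have h1 : (2 : ℝ) ^ h * 2 ^ (D + 1) ≤ n := by
      have h2 : 2 ^ h * 2 ^ (D + 1) ≤ n :=
        (Nat.mul_le_mul_right _ (Nat.pow_le_pow_right (by norm_num) hh)).trans hH1
      exact_mod_cast h2
    have h3 : 2 ^ D * t h = (2 ^ h * 2 ^ (D + 1)) * kap / n / 2 := by
      simp only [t, pow_succ]
      ring
    rw [h3]
    have h4 : (2 ^ h * 2 ^ (D + 1)) * kap / n ≤ kap := by
      rw [div_le_iff₀ hnR]
      nlinarith
    linarith
  have hsc := fun h : Fin (H + 1) => scale hCOV K hK (hDdef ▸ hD) (t h) (ht0 h)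
    (htD h (by omega))
  choose N S B hS hB hSK hSlo hBhi hN hcov using hsc
  -- the family
  let lastH : Fin (H + 1) := Fin.last H
  let I : Type := (Σ h : Fin (H + 1), Fin (N h)) ⊕ Fin (N lastH)
  let S' : I → Set V := fun i => match i with
    | Sum.inl p => if p.1 = 0 then ∅ else S p.1 p.2
    | Sum.inr i => S lastH i
  let B' : I → Set V := fun i => match i with
    | Sum.inl p => B p.1 p.2
    | Sum.inr _ => univ
  have hS' : ∀ i, MeasurableSet (S' i) := by
    rintro (p | i)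
    · simp only [S']
      split_ifs
      · exact MeasurableSet.empty
      · exact hS _ _
    · exact hS _ _
  have hB' : ∀ i, MeasurableSet (B' i) := by
    rintro (p | i)
    · exact hB _ _
    · exact MeasurableSet.univ
  have hSK' : ∀ i, S' i ⊆ K := by
    rintro (p | i)
    · simp only [S']
      split_ifs
      · exact empty_subset _
      · exact hSK _ _
    · exact hSK _ _
  have hcov' : ∀ (ℓ : V →L[ℝ] ℝ) (s : ℝ), ℓ ≠ 0 → ∃ i, cap K ℓ s ⊆ B' i ∧ ∀ x ∈ S' i, s < ℓ x := by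
    intro ℓ s hℓ
    set τ := volume (cap K ℓ s) with hτ
    by_cases hA1 : τ ≤ ENNReal.ofReal (t 0)
    · obtain ⟨s', hs', hv⟩ := (hCV V K hK ℓ hℓ s (ENNReal.ofReal (t 0))).1 hA1 (by
        rw [hvK]
        apply ENNReal.ofReal_le_ofReal
        simp only [t, pow_zero, one_mul]
        exact div_le_self hkap0.le hnR1)
      obtain ⟨i, hi1, hi2⟩ := hcov 0 ℓ s' (by
        rw [hv]
        apply ENNReal.ofReal_le_ofReal
        have := ht0 0
        simp only [Fin.val_zero]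
        linarith) (by rw [hv]; simp)
      refine ⟨Sum.inl ⟨0, i⟩, ?_, ?_⟩
      · refine subset_trans ?_ hi1
        exact fun z hz => ⟨hz.1, hs'.trans hz.2⟩
      · simp [S']
    · by_cases hC : τ ≤ ENNReal.ofReal (t H)
      · classical
        have hex : ∃ h, τ ≤ ENNReal.ofReal (t h) := ⟨H, hC⟩
        set h0 := Nat.find hex with hh0
        have h1 : τ ≤ ENNReal.ofReal (t h0) := Nat.find_spec hex
        have h2 : h0 ≤ H := Nat.find_min' hex hC
        have h3 : h0 ≠ 0 := by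
          intro h
          rw [h] at h1
          exact hA1 h1
        obtain ⟨g, hg⟩ : ∃ g, h0 = g + 1 := ⟨h0 - 1, by omega⟩
        have h4 : ¬ τ ≤ ENNReal.ofReal (t g) := Nat.find_min hex (by omega)
        have h5 : ENNReal.ofReal (t h0 / 2) ≤ τ := by
          rw [hg, htsucc]
          exact (not_le.1 h4).le
        obtain ⟨i, hi1, hi2⟩ := hcov ⟨h0, by omega⟩ ℓ s h5 h1
        refine ⟨Sum.inl ⟨⟨h0, by omega⟩, i⟩, hi1, ?_⟩
        simp only [S']
        rw [if_neg (by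
          intro h
          exact h3 (by simpa using congrArg Fin.val h))]
        exact hi2
      · obtain ⟨s', hs', hv⟩ := (hCV V K hK ℓ hℓ s (ENNReal.ofReal (t H))).2 (not_le.1 hC).le
        obtain ⟨i, hi1, hi2⟩ := hcov lastH ℓ s' (by
          rw [hv]
          apply ENNReal.ofReal_le_ofReal
          have := ht0 H
          simp only [lastH, Fin.val_last]
          linarith) (by rw [hv]; simp [lastH])
        refine ⟨Sum.inr i, subset_univ _, ?_⟩
        intro x hx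
        exact hs'.trans_lt (hi2 x hx)
  -- the union bound
  have hub := hUB V K hK I S' B' hS' hB' hSK' hcov' n j
  have hmf : meanFaces K n j ≤ ∫⁻ ω, ((supp j ω).encard : ℝ≥0∞) ∂(samp K n) := by
    refine lintegral_mono_ae ((hGP V K hK n).mono fun ω hω => ?_)
    have h1 := hFUP V n j hj (by
      have h2 : D + 1 ≤ 2 ^ (D + 1) := Nat.lt_two_pow_self.le
      exact h2.trans hn2) ω hω
    exact_mod_cast h1
  refine (hmf.trans hub).trans ?_
  -- estimates
  set w0 := volume (wet K (volume K / n)) with hw0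
  have hw0t : w0 = volume (wet K (ENNReal.ofReal (t 0))) := by
    rw [hw0]
    congr 2
    simp only [t, pow_zero, one_mul]
    rw [ENNReal.ofReal_div_of_pos hnR, ← hvK, ENNReal.ofReal_natCast]
  have hNb : ∀ h : Fin (H + 1), (N h : ℝ≥0∞) ≤
      ENNReal.ofReal (A * (2 * 2 ^ (h : ℕ)) ^ b / (cc * (2 ^ (h : ℕ) * kap / n))) * w0 := by
    intro h
    have hx : (1 : ℝ) ≤ 2 ^ (h : ℕ) := one_le_pow₀ (by norm_num)
    have h1 := hN h
    have h2 := hdbl (t 0) (2 * 2 ^ (h : ℕ)) (ht0 0) (by linarith)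
    have e1 : 2 * 2 ^ (h : ℕ) * t 0 = 2 * t h := by simp only [t, pow_zero]; ring
    rw [e1, ← hw0t] at h2
    have h3 := h1.trans h2
    have hct : 0 < cc * t h := mul_pos hcc0 (ht0 h)
    have hct' : ENNReal.ofReal (cc * t h) ≠ 0 := by
      rw [Ne, ENNReal.ofReal_eq_zero, not_le]; exact hct
    have e2 : A * (2 * 2 ^ (h : ℕ)) ^ b / (cc * (2 ^ (h : ℕ) * kap / n)) =
        A * (2 * 2 ^ (h : ℕ)) ^ b / (cc * t h) := rfl
    rw [e2, ENNReal.ofReal_div_of_pos hct]
    calc (N h : ℝ≥0∞) = (N h : ℝ≥0∞) * ENNReal.ofReal (cc * t h) / ENNReal.ofReal (cc * t h) := by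
          rw [ENNReal.mul_div_cancel_right hct' ENNReal.ofReal_ne_top]
      _ ≤ (ENNReal.ofReal (A * (2 * 2 ^ (h : ℕ)) ^ b) * w0) / ENNReal.ofReal (cc * t h) := by
          gcongr
      _ = _ := by
          rw [ENNReal.mul_div_right_comm]
  have hBb : ∀ (h : Fin (H + 1)) (i : Fin (N h)), volume (B h i ∩ K) / volume K ≤
      ENNReal.ofReal (CC * 2 ^ (h : ℕ) / n) := by
    intro h i
    have h1 : volume (B h i ∩ K) ≤ ENNReal.ofReal (CC * t h) :=
      (measure_mono inter_subset_left).trans (hBhi h i)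
    have e1 : CC * 2 ^ (h : ℕ) / n = CC * t h / kap := by
      simp only [t]; field_simp
    rw [e1, ENNReal.ofReal_div_of_pos hkap0, ← hvK]
    gcongr
  have hSb : ∀ (h : Fin (H + 1)) (i : Fin (N h)), (1 - volume (S h i) / volume K) ^ m ≤
      ENNReal.ofReal (Real.exp (-(cc * 2 ^ (h : ℕ) * m / n))) := by
    intro h i
    have h1 : ENNReal.ofReal (cc * 2 ^ (h : ℕ) / n) ≤ volume (S h i) / volume K := by
      have e1 : cc * 2 ^ (h : ℕ) / n = cc * t h / kap := by
        simp only [t]; field_simp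
      rw [e1, ENNReal.ofReal_div_of_pos hkap0, ← hvK]
      gcongr
      exact hSlo h i
    have h2 : 1 - volume (S h i) / volume K ≤ ENNReal.ofReal (Real.exp (-(cc * 2 ^ (h : ℕ) / n))) := by
      calc 1 - volume (S h i) / volume K ≤ 1 - ENNReal.ofReal (cc * 2 ^ (h : ℕ) / n) := by gcongr
        _ = ENNReal.ofReal (1 - cc * 2 ^ (h : ℕ) / n) := by
            rw [ENNReal.ofReal_sub _ (by positivity), ENNReal.ofReal_one]
        _ ≤ _ := by
            apply ENNReal.ofReal_le_ofReal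
            have := Real.add_one_le_exp (-(cc * 2 ^ (h : ℕ) / n))
            linarith
    calc (1 - volume (S h i) / volume K) ^ m
        ≤ (ENNReal.ofReal (Real.exp (-(cc * 2 ^ (h : ℕ) / n)))) ^ m := by gcongr
      _ = ENNReal.ofReal (Real.exp (-(cc * 2 ^ (h : ℕ) * m / n))) := by
          rw [← ENNReal.ofReal_pow (Real.exp_pos _).le, ← Real.exp_nat_mul]
          congr 2
          ring
  have hchoose : ((n.choose (j + 1) : ℕ) : ℝ≥0∞) ≤ ENNReal.ofReal ((n : ℝ) ^ (j + 1)) := by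
    have h1 : n.choose (j + 1) ≤ n ^ (j + 1) := Nat.choose_le_pow n (j + 1)
    rw [← Nat.cast_pow, ENNReal.ofReal_natCast]
    exact_mod_cast h1
  -- the sum over `I`
  have hsumI : ∑ i : I, (volume (B' i ∩ K) / volume K) ^ (j + 1) *
      (1 - volume (S' i) / volume K) ^ m =
      (∑ h : Fin (H + 1), ∑ i : Fin (N h), (volume (B' (Sum.inl ⟨h, i⟩) ∩ K) / volume K) ^ (j + 1) *
        (1 - volume (S' (Sum.inl ⟨h, i⟩)) / volume K) ^ m) +
      ∑ i : Fin (N lastH), (volume (B' (Sum.inr i) ∩ K) / volume K) ^ (j + 1) *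
        (1 - volume (S' (Sum.inr i)) / volume K) ^ m := by
    rw [Fintype.sum_sum_type, Fintype.sum_sigma]
  rw [hsumI, mul_add, Finset.mul_sum]
  have hterm : ∀ h : Fin (H + 1), ((n.choose (j + 1) : ℕ) : ℝ≥0∞) *
      (∑ i : Fin (N h), (volume (B' (Sum.inl ⟨h, i⟩) ∩ K) / volume K) ^ (j + 1) *
        (1 - volume (S' (Sum.inl ⟨h, i⟩)) / volume K) ^ m) ≤
      ENNReal.ofReal (n * ((Q0 + Q0 * M) * (1 / 2) ^ (h : ℕ))) * w0 := by
    intro h
    have hx : (1 : ℝ) ≤ 2 ^ (h : ℕ) := one_le_pow₀ (by norm_num)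
    -- the size of each term
    set T : ℝ := (CC * 2 ^ (h : ℕ) / n) ^ (j + 1) *
      (if h = 0 then 1 else Real.exp (-(cc * 2 ^ (h : ℕ) * m / n))) with hT
    have hT0 : 0 ≤ T := by
      rw [hT]
      refine mul_nonneg (by positivity) ?_
      split_ifs
      · norm_num
      · exact (Real.exp_pos _).le
    have h1 : ∀ i : Fin (N h), (volume (B' (Sum.inl ⟨h, i⟩) ∩ K) / volume K) ^ (j + 1) *
        (1 - volume (S' (Sum.inl ⟨h, i⟩)) / volume K) ^ m ≤ ENNReal.ofReal T := by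
      intro i
      rw [hT, ENNReal.ofReal_mul (by positivity), ENNReal.ofReal_pow (by positivity)]
      have h2 : (volume (B' (Sum.inl ⟨h, i⟩) ∩ K) / volume K) ^ (j + 1) ≤
          ENNReal.ofReal (CC * 2 ^ (h : ℕ) / n) ^ (j + 1) := by
        gcongr
        exact hBb h i
      refine mul_le_mul' h2 ?_
      by_cases h3 : h = 0
      · rw [if_pos h3, ENNReal.ofReal_one]
        exact pow_le_one' tsub_le_self m
      · rw [if_neg h3]
        simp only [S']
        rw [if_neg h3]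
        exact hSb h i
    have h4 : ∑ i : Fin (N h), (volume (B' (Sum.inl ⟨h, i⟩) ∩ K) / volume K) ^ (j + 1) *
        (1 - volume (S' (Sum.inl ⟨h, i⟩)) / volume K) ^ m ≤ N h * ENNReal.ofReal T := by
      calc _ ≤ ∑ i : Fin (N h), ENNReal.ofReal T := Finset.sum_le_sum fun i _ => h1 i
        _ = _ := by rw [Finset.sum_const, Finset.card_univ, Fintype.card_fin, nsmul_eq_mul]
    have h5 : (n : ℝ) ^ (j + 1) * (A * (2 * 2 ^ (h : ℕ)) ^ b / (cc * (2 ^ (h : ℕ) * kap / n))) * T ≤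
        n * ((Q0 + Q0 * M) * (1 / 2) ^ (h : ℕ)) := by
      by_cases h3 : h = 0
      · rw [hT, if_pos h3, h3]
        simp only [Fin.val_zero, pow_zero, mul_one, one_mul]
        have e1 : (n : ℝ) ^ (j + 1) * (A * 2 ^ b / (cc * (kap / n))) * (CC / n) ^ (j + 1) =
            n * Q0 := by
          rw [hQ0, div_pow]
          field_simp
        rw [e1]
        have : 0 ≤ Q0 * M := by positivity
        nlinarith
      · rw [hT, if_neg h3]
        refine (real2 A b cc CC kap M j hA hcc0 hCC0 hkap0 hM n (2 ^ (h : ℕ)) m hnR1 hx hmn).trans ?_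
        rw [← hQ0]
        have e1 : (1 / 2 : ℝ) ^ (h : ℕ) = 1 / 2 ^ (h : ℕ) := by rw [div_pow, one_pow]
        rw [e1, mul_one_div]
        gcongr
        linarith
    calc ((n.choose (j + 1) : ℕ) : ℝ≥0∞) * _
        ≤ ENNReal.ofReal ((n : ℝ) ^ (j + 1)) * ((ENNReal.ofReal
          (A * (2 * 2 ^ (h : ℕ)) ^ b / (cc * (2 ^ (h : ℕ) * kap / n))) * w0) *
          ENNReal.ofReal T) :=
          mul_le_mul' hchoose (h4.trans (mul_le_mul_left (hNb h) _))
      _ = ENNReal.ofReal ((n : ℝ) ^ (j + 1) *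
          (A * (2 * 2 ^ (h : ℕ)) ^ b / (cc * (2 ^ (h : ℕ) * kap / n))) * T) * w0 := by
          rw [ofReal3 _ _ T (by positivity) (by positivity)]
          ring
      _ ≤ _ := by
          gcongr
  have hlast : ((n.choose (j + 1) : ℕ) : ℝ≥0∞) *
      (∑ i : Fin (N lastH), (volume (B' (Sum.inr i) ∩ K) / volume K) ^ (j + 1) *
        (1 - volume (S' (Sum.inr i)) / volume K) ^ m) ≤ ENNReal.ofReal (n * Q2) * w0 := by
    have hx : (1 : ℝ) ≤ 2 ^ H := one_le_pow₀ (by norm_num)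
    set T : ℝ := Real.exp (-(cc * 2 ^ H * m / n)) with hT
    have hT0 : 0 ≤ T := (Real.exp_pos _).le
    have h1 : ∀ i : Fin (N lastH), (volume (B' (Sum.inr i) ∩ K) / volume K) ^ (j + 1) *
        (1 - volume (S' (Sum.inr i)) / volume K) ^ m ≤ ENNReal.ofReal T := by
      intro i
      have h2 : (volume (B' (Sum.inr i) ∩ K) / volume K) ^ (j + 1) ≤ 1 := by
        simp only [B', univ_inter]
        rw [ENNReal.div_self hv0 hvt, one_pow]
      calc _ ≤ 1 * ENNReal.ofReal T := mul_le_mul' h2 (hSb lastH i)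
        _ = _ := one_mul _
    have h4 : ∑ i : Fin (N lastH), (volume (B' (Sum.inr i) ∩ K) / volume K) ^ (j + 1) *
        (1 - volume (S' (Sum.inr i)) / volume K) ^ m ≤ N lastH * ENNReal.ofReal T := by
      calc _ ≤ ∑ i : Fin (N lastH), ENNReal.ofReal T := Finset.sum_le_sum fun i _ => h1 i
        _ = _ := by rw [Finset.sum_const, Finset.card_univ, Fintype.card_fin, nsmul_eq_mul]
    have hnx : (n : ℝ) ≤ L * 2 ^ H := by
      rw [hL]
      exact_mod_cast hH2
    have h5 := real4 A b cc kap M j hA hcc0 hkap0 hM L n (2 ^ H) m (by positivity) hnR1 hx hmn hnx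
    rw [← hQ2] at h5
    calc ((n.choose (j + 1) : ℕ) : ℝ≥0∞) * _
        ≤ ENNReal.ofReal ((n : ℝ) ^ (j + 1)) * ((ENNReal.ofReal
          (A * (2 * 2 ^ H) ^ b / (cc * (2 ^ H * kap / n))) * w0) * ENNReal.ofReal T) :=
          mul_le_mul' hchoose (h4.trans (mul_le_mul_left (hNb lastH) _))
      _ = ENNReal.ofReal ((n : ℝ) ^ (j + 1) *
          (A * (2 * 2 ^ H) ^ b / (cc * (2 ^ H * kap / n))) * T) * w0 := by
          rw [ofReal3 _ _ T (by positivity) (by positivity)]
          ring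
      _ ≤ _ := by
          gcongr
  have hgeo : ∑ h : Fin (H + 1), ENNReal.ofReal (n * ((Q0 + Q0 * M) * (1 / 2) ^ (h : ℕ))) ≤
      ENNReal.ofReal (n * (2 * (Q0 + Q0 * M))) := by
    rw [← ENNReal.ofReal_sum_of_nonneg fun i _ => by positivity]
    apply ENNReal.ofReal_le_ofReal
    rw [← Finset.mul_sum, ← Finset.mul_sum, Fin.sum_univ_eq_sum_range (fun i => (1 / 2 : ℝ) ^ i)]
    have := sum_geometric_two_le (H + 1)
    have h0 : 0 ≤ Q0 + Q0 * M := by positivity
    calc (n : ℝ) * ((Q0 + Q0 * M) * ∑ i ∈ Finset.range (H + 1), (1 / 2 : ℝ) ^ i)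
        ≤ n * ((Q0 + Q0 * M) * 2) := by gcongr
      _ = _ := by ring
  calc _ ≤ (∑ h : Fin (H + 1), ENNReal.ofReal (n * ((Q0 + Q0 * M) * (1 / 2) ^ (h : ℕ))) * w0) +
        ENNReal.ofReal (n * Q2) * w0 := add_le_add (Finset.sum_le_sum fun h _ => hterm h) hlast
    _ = ((∑ h : Fin (H + 1), ENNReal.ofReal (n * ((Q0 + Q0 * M) * (1 / 2) ^ (h : ℕ)))) +
        ENNReal.ofReal (n * Q2)) * w0 := by rw [← Finset.sum_mul, add_mul]
    _ ≤ (ENNReal.ofReal (n * (2 * (Q0 + Q0 * M))) + ENNReal.ofReal (n * Q2)) * w0 := by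
        gcongr
    _ = ENNReal.ofReal (2 * (Q0 + Q0 * M) + Q2) * n * w0 := by
        have e1 : ENNReal.ofReal (2 * (Q0 + Q0 * M) + Q2) * (n : ℝ≥0∞) =
            ENNReal.ofReal ((2 * (Q0 + Q0 * M) + Q2) * n) := by
          rw [ENNReal.ofReal_mul (by positivity), ENNReal.ofReal_natCast]
        rw [e1, ← ENNReal.ofReal_add (by positivity) (by positivity)]
        congr 2
        ring

end Pool.Agent.W588.RP
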