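import Pool.Agent.W829.RP.Defs

/-!
# The economic covering at one scale, with volumes (for RP-UP)
-/

set_option autoImplicit false

open MeasureTheory Set Module
open scoped ENNReal Pointwise

namespace Pool.Agent.W588.RP

open Pool.Agent.W829.RP

variable {V : Type} [NormedAddCommGroup V] [NormedSpace ℝ V]

/-- the symmetric part of `K` at `y` -/
def sym (K : Set V) (y : V) : Set V := {p | y + p ∈ K ∧ y - p ∈ K}

theorem mac_eq (K : Set V) (y : V) (r : ℝ) : mac K y r = (fun z => y + z) '' (r • sym K y) := by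
  ext z
  constructor
  · rintro ⟨p, rfl, h1, h2⟩
    exact ⟨r • p, ⟨p, ⟨h1, h2⟩, rfl⟩, rfl⟩
  · rintro ⟨_, ⟨p, ⟨h1, h2⟩, rfl⟩, rfl⟩
    exact ⟨p, rfl, h1, h2⟩

theorem sym_compact {K : Set V} (hK : IsCompact K) (y : V) : IsCompact (sym K y) := by
  have h : sym K y = (fun z => z - y) '' K ∩ (fun p => y - p) ⁻¹' K := by
    ext p
    constructor
    · rintro ⟨h1, h2⟩
      exact ⟨⟨y + p, h1, by simp⟩, h2⟩
    · rintro ⟨⟨z, hz, rfl⟩, h2⟩
      exact ⟨by simpa using hz, h2⟩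
  rw [h]
  exact (hK.image (by fun_prop)).inter_right (hK.isClosed.preimage (by fun_prop))

theorem mac_compact {K : Set V} (hK : IsCompact K) (y : V) (r : ℝ) : IsCompact (mac K y r) := by
  rw [mac_eq]
  exact ((sym_compact hK y).smul r).image (by fun_prop)

theorem mac_small {K : Set V} (hK : Convex ℝ K) (y : V) : mac K y (1 / 5) ⊆ mac K y 1 := by
  rintro z ⟨p, rfl, h1, h2⟩
  refine ⟨(1 / 5 : ℝ) • p, by rw [one_smul], ?_, ?_⟩
  · have := hK h1 h2 (a := 3 / 5) (b := 2 / 5) (by norm_num) (by norm_num) (by norm_num)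
    convert this using 1
    module
  · have := hK h1 h2 (a := 2 / 5) (b := 3 / 5) (by norm_num) (by norm_num) (by norm_num)
    convert this using 1
    module

variable [FiniteDimensional ℝ V] [MeasureSpace V] [BorelSpace V]
  [(volume : Measure V).IsAddHaarMeasure]

theorem mac_vol (K : Set V) (y : V) (r : ℝ) (hr : 0 ≤ r) :
    volume (mac K y r) = ENNReal.ofReal (r ^ finrank ℝ V) * volume (sym K y) := by
  rw [mac_eq, Set.image_add_left, measure_preimage_add, Measure.addHaar_smul,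
    abs_of_nonneg (by positivity)]

/-- the constants -/
noncomputable def c1 (D : ℕ) : ℝ := (1 / 5) ^ D * ((4 * ((D : ℝ) + 1)) ^ D)⁻¹ / 2

noncomputable def C1 (D : ℕ) : ℝ := (6 * (D : ℝ) + 7) ^ D

theorem c1_pos (D : ℕ) : 0 < c1 D := by unfold c1; positivity

theorem C1_pos (D : ℕ) : 0 < C1 D := by unfold C1; positivity

theorem good_lo {K : Set V} {t : ℝ} {y : V} {ℓ : V →L[ℝ] ℝ} {s : ℝ} (h : Good K t y ℓ s) :
    ENNReal.ofReal (c1 (finrank ℝ V) * t) ≤ volume (mac K y (1 / 5)) := by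
  set D := finrank ℝ V with hD
  have h1 : ENNReal.ofReal (t / 2) ≤ ENNReal.ofReal ((4 * ((D : ℝ) + 1)) ^ D) *
      volume (sym K y) := by
    have := h.lo.trans (measure_mono h.sub)
    rwa [mac_vol K y _ (by positivity)] at this
  rw [mac_vol K y _ (by positivity), ← hD]
  have e1 : ENNReal.ofReal (c1 D * t) = ENNReal.ofReal ((1 / 5) ^ D) *
      (ENNReal.ofReal ((4 * ((D : ℝ) + 1)) ^ D)⁻¹ * ENNReal.ofReal (t / 2)) := by
    rw [← ENNReal.ofReal_mul (by positivity), ← ENNReal.ofReal_mul (by positivity)]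
    congr 1
    unfold c1
    ring
  rw [e1]
  gcongr
  calc ENNReal.ofReal ((4 * ((D : ℝ) + 1)) ^ D)⁻¹ * ENNReal.ofReal (t / 2)
      ≤ ENNReal.ofReal ((4 * ((D : ℝ) + 1)) ^ D)⁻¹ *
        (ENNReal.ofReal ((4 * ((D : ℝ) + 1)) ^ D) * volume (sym K y)) := by gcongr
    _ = volume (sym K y) := by
        rw [← mul_assoc, ← ENNReal.ofReal_mul (by positivity), inv_mul_cancel₀ (by positivity),
          ENNReal.ofReal_one, one_mul]

theorem good_hi {K : Set V} {t : ℝ} {y : V} {ℓ : V →L[ℝ] ℝ} {s : ℝ} (h : Good K t y ℓ s) :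
    volume (mac K y (6 * finrank ℝ V + 7)) ≤ ENNReal.ofReal (C1 (finrank ℝ V) * t) := by
  set D := finrank ℝ V with hD
  have h1 : volume (sym K y) ≤ ENNReal.ofReal t := by
    have := (measure_mono h.sup).trans h.hi
    rw [mac_vol K y _ (by positivity)] at this
    simpa using this
  rw [mac_vol K y _ (by positivity), ← hD, C1, ENNReal.ofReal_mul (by positivity)]
  gcongr

theorem good_wet {K : Set V} (hK : Convex ℝ K) {t : ℝ} (ht : 0 < t) {y : V} {ℓ : V →L[ℝ] ℝ}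
    {s : ℝ} (h : Good K t y ℓ s) : mac K y (1 / 5) ⊆ wet K (ENNReal.ofReal (2 * t)) := by
  intro x hx
  have hx' := h.sup (mac_small hK y hx)
  refine ⟨hx'.1, ?_⟩
  calc vf K x ≤ volume (cap K ℓ (ℓ x)) := iInf_le _ ℓ
    _ ≤ volume (cap K ℓ s) := measure_mono fun z hz => ⟨hz.1, hx'.2.trans hz.2⟩
    _ ≤ ENNReal.ofReal t := h.hi
    _ < ENNReal.ofReal (2 * t) := (ENNReal.ofReal_lt_ofReal_iff (by linarith)).2 (by linarith)

/-- The covering at the scale `t`. -/
theorem scale (hCOV : S_COV) (K : Set V) (hK : IsBody K) (hD : 1 ≤ finrank ℝ V) (t : ℝ)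
    (ht : 0 < t) (ht2 : ENNReal.ofReal (2 ^ finrank ℝ V * t) < volume K) :
    ∃ (N : ℕ) (S B : Fin N → Set V), (∀ i, MeasurableSet (S i)) ∧ (∀ i, MeasurableSet (B i)) ∧
      (∀ i, S i ⊆ K) ∧ (∀ i, ENNReal.ofReal (c1 (finrank ℝ V) * t) ≤ volume (S i)) ∧
      (∀ i, volume (B i) ≤ ENNReal.ofReal (C1 (finrank ℝ V) * t)) ∧
      (N : ℝ≥0∞) * ENNReal.ofReal (c1 (finrank ℝ V) * t) ≤
        volume (wet K (ENNReal.ofReal (2 * t))) ∧
      ∀ (ℓ' : V →L[ℝ] ℝ) (s' : ℝ), ENNReal.ofReal (t / 2) ≤ volume (cap K ℓ' s') →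
        volume (cap K ℓ' s') ≤ ENNReal.ofReal t →
        ∃ i, cap K ℓ' s' ⊆ B i ∧ ∀ x ∈ S i, s' < ℓ' x := by
  obtain ⟨N, y, ℓ, s, h1, h2, h3⟩ := hCOV V K hK hD t ht ht2
  have hm : ∀ i r, MeasurableSet (mac K (y i) r) := fun i r =>
    (mac_compact hK.2.1 _ _).measurableSet
  refine ⟨N, fun i => mac K (y i) (1 / 5), fun i => mac K (y i) (6 * finrank ℝ V + 7),
    fun i => hm i _, fun i => hm i _, fun i => ?_, fun i => good_lo (h1 i),
    fun i => good_hi (h1 i), ?_, h3⟩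
  · exact (mac_small hK.1 _).trans ((h1 i).sup.trans fun x hx => hx.1)
  · calc (N : ℝ≥0∞) * ENNReal.ofReal (c1 (finrank ℝ V) * t)
        = ∑ i : Fin N, ENNReal.ofReal (c1 (finrank ℝ V) * t) := by
          rw [Finset.sum_const, Finset.card_univ, Fintype.card_fin, nsmul_eq_mul]
      _ ≤ ∑ i : Fin N, volume (mac K (y i) (1 / 5)) :=
          Finset.sum_le_sum fun i _ => good_lo (h1 i)
      _ = volume (⋃ i, mac K (y i) (1 / 5)) := by
          rw [measure_iUnion (fun i j hij => h2 i j hij) (fun i => hm i _), tsum_fintype]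
      _ ≤ volume (wet K (ENNReal.ofReal (2 * t))) :=
          measure_mono (iUnion_subset fun i => good_wet hK.1 ht (h1 i))

end Pool.Agent.W588.RP
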